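import Pool.Agent.W2helper60.RO.Main

/-!
# A function in `Σ_2^p` separating `NP ∩ co-NP` from quasipolynomial size for read-once programs

Let `m = ⌊√n⌋` and let `x (i * m + j)`, `i, j < m`, be the entries of an `m × m` matrix. The function
`Zf (ent n)` is `1` iff some row of the matrix is all zero and some column of the matrix is all zero.
-/

set_option autoImplicit false

namespace Pool.Agent.Results.MP_232433_lc.SigmaTwoSeparation

open Pool.Agent.W2helper60.RO

/-- Both questions of Q1 are answered affirmatively by the sequence `f n = Zf (ent n)`: it is in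
`Σ_2^p`, in `Σ_3^p` and in `Π_3^p`, the functions `f n` and `¬ f n` have nondeterministic read-once
branching programs of polynomial size, and deterministic read-once branching programs for `f n`
have size more than `2 ^ ((log n) ^ c)` for every constant `c` and all large `n`; in fact they have
size at least `2 ^ s` whenever `(4 s ^ 2 + 2) ^ 2 ≤ n`. -/
theorem result :
    PolyDepth 2 true (fun n => Zf (ent n)) ∧ PolyDepth 3 true (fun n => Zf (ent n)) ∧
      PolyDepth 3 false (fun n => Zf (ent n)) ∧ Separates (fun n => Zf (ent n)) ∧
      ∀ n s : ℕ, (4 * s ^ 2 + 2) ^ 2 ≤ n → ∀ P : BP n, P.Det → P.ReadOnce →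
        P.Computes (Zf (ent n)) → 2 ^ s ≤ P.size :=
  ⟨depth_two, depth_three_true, depth_three_false, ⟨nro_pos, nro_neg, quasi⟩, lower_ent⟩

end Pool.Agent.Results.MP_232433_lc.SigmaTwoSeparation
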